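import Pool.Agent.Helper70.MM.Goals5

/-!
# Packet MM5-INNER: the inner part of the maximising measure is a single sphere
-/

open MeasureTheory Set Metric
open scoped ENNReal RealInnerProductSpace Topology
open Pool.Agent.Results.MP_91ee6f_gt
open Pool.Agent.Helper70.MM

namespace Pool.Agent.Helper97.MM5

/-- The potential of a finite measure is continuous. -/
lemma continuous_potential_En {n : ℕ} (μ : Measure (En n)) [IsFiniteMeasure μ] :
    Continuous (potential μ) := by
  refine continuous_of_dominated (bound := fun _ => 1) ?_ ?_ (integrable_const _) ?_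
  · intro x
    exact (by fun_prop : Continuous fun y : En n => Real.exp (-dist x y)).aestronglyMeasurable
  · intro x
    refine Filter.Eventually.of_forall fun y => ?_
    rw [Real.norm_eq_abs, abs_of_pos (Real.exp_pos _), Real.exp_le_one_iff]
    linarith [dist_nonneg (x := x) (y := y)]
  · exact Filter.Eventually.of_forall fun y => by fun_prop

/-- The part of a rotation invariant measure in an invariant set which is carried by one sphere is
a multiple of the uniform measure. -/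
lemma restrict_eq {n : ℕ} (hn : 1 ≤ n) (w : Measure (En n)) [IsProbabilityMeasure w]
    (hw : ∀ g : En n ≃ₗᵢ[ℝ] En n, w.map g = w) (T : Set (En n)) (hT : MeasurableSet T)
    (hTg : ∀ g : En n ≃ₗᵢ[ℝ] En n, (g : En n → En n) ⁻¹' T = T) (s : ℝ) (hs : 0 < s)
    (hpos : 0 < w.real T) (hc : w (T ∩ (sphere (0 : En n) s)ᶜ) = 0) :
    w.restrict T = ENNReal.ofReal (w.real T) • sphUnif n s := by
  have hm0 : w T ≠ 0 := by
    intro h
    rw [measureReal_def, h] at hpos
    simp at hpos
  have hmt : w T ≠ ⊤ := measure_ne_top w T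
  have hmr : ENNReal.ofReal (w.real T) = w T := by
    rw [measureReal_def, ENNReal.ofReal_toReal hmt]
  have hp : IsProbabilityMeasure ((w T)⁻¹ • w.restrict T) := by
    refine ⟨?_⟩
    rw [Measure.smul_apply, Measure.restrict_apply_univ, smul_eq_mul]
    exact ENNReal.inv_mul_cancel hm0 hmt
  have hinv : ∀ g : En n ≃ₗᵢ[ℝ] En n,
      ((w T)⁻¹ • w.restrict T).map g = (w T)⁻¹ • w.restrict T := by
    intro g
    have hg : Measurable (g : En n → En n) := g.continuous.measurable
    rw [Measure.map_smul]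
    congr 1
    have h1 := Measure.restrict_map (μ := w) hg hT
    rw [hw g, hTg g] at h1
    exact h1.symm
  have hcar : ((w T)⁻¹ • w.restrict T) (sphere (0 : En n) s)ᶜ = 0 := by
    rw [Measure.smul_apply, Measure.restrict_apply isClosed_sphere.measurableSet.compl,
      inter_comm, hc, smul_zero]
  have h := fSPHU n hn s hs _ hp hcar hinv
  rw [hmr, ← h, smul_smul, ENNReal.mul_inv_cancel hm0 hmt, one_smul]

theorem innerMain (hPDER : PDER) (hMONO : MONO) (hOUTER : OUTER) (hRADW : RADW) : INNER := by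
  intro n hn R₀ hR₀ η hη
  have hn' : (4 : ℝ) ≤ n := by exact_mod_cast hn
  have hR₀0 : 0 < R₀ := by linarith
  obtain ⟨cM, hcM, δM, hδM, hM⟩ := hMONO n hn
  -- the constants
  obtain ⟨α, hα⟩ : ∃ α : ℝ, α = Real.exp (-(R₀ + 1)) * (R₀ - ((n : ℝ) - 1)) / (n * (R₀ + 1)) :=
    ⟨_, rfl⟩
  have hα0 : 0 < α := by
    rw [hα]
    have h1 : 0 < R₀ - ((n : ℝ) - 1) := by linarith
    have h2 : 0 < Real.exp (-(R₀ + 1)) := Real.exp_pos _
    positivity
  obtain ⟨C₁, hC₁⟩ : ∃ C : ℝ, C = (R₀ + 1) ^ 2 * om 3 (R₀ / 2) := ⟨_, rfl⟩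
  have hC₁0 : 0 < C₁ := by
    rw [hC₁]
    have := om_pos 3 (show (0 : ℝ) < R₀ / 2 by linarith)
    positivity
  obtain ⟨δ, hδ⟩ : ∃ δ : ℝ, δ = min (min (η / 2) (R₀ / 8)) (min (min δM 1)
    (min (α / (2 * C₁)) (α * cM / (4 * C₁)))) := ⟨_, rfl⟩
  have hδ0 : 0 < δ := by
    rw [hδ]
    refine lt_min (lt_min (by linarith) (by linarith)) (lt_min (lt_min hδM one_pos)
      (lt_min (by positivity) (by positivity)))
  have hδη : δ ≤ η / 2 := hδ ▸ (min_le_left _ _).trans (min_le_left _ _)
  have hδR : δ ≤ R₀ / 8 := hδ ▸ (min_le_left _ _).trans (min_le_right _ _)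
  have hδδM : δ ≤ δM := hδ ▸ (min_le_right _ _).trans ((min_le_left _ _).trans (min_le_left _ _))
  have hδ1 : δ ≤ 1 := hδ ▸ (min_le_right _ _).trans ((min_le_left _ _).trans (min_le_right _ _))
  have hδa : δ ≤ α / (2 * C₁) :=
    hδ ▸ (min_le_right _ _).trans ((min_le_right _ _).trans (min_le_left _ _))
  have hδb : δ ≤ α * cM / (4 * C₁) :=
    hδ ▸ (min_le_right _ _).trans ((min_le_right _ _).trans (min_le_right _ _))
  have hδ2 : δ ^ 2 ≤ δ := by nlinarith
  have hCa : C₁ * δ ^ 2 ≤ α / 2 := by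
    have h1 : C₁ * δ ^ 2 ≤ C₁ * (α / (2 * C₁)) :=
      mul_le_mul_of_nonneg_left (hδ2.trans hδa) hC₁0.le
    have h2 : C₁ * (α / (2 * C₁)) = α / 2 := by field_simp
    linarith
  have hCb : C₁ * δ ^ 2 ≤ α * cM / 4 := by
    have h1 : C₁ * δ ^ 2 ≤ C₁ * (α * cM / (4 * C₁)) :=
      mul_le_mul_of_nonneg_left (hδ2.trans hδb) hC₁0.le
    have h2 : C₁ * (α * cM / (4 * C₁)) = α * cM / 4 := by field_simp
    linarith
  refine ⟨δ, hδ0, by linarith, by linarith, ?_⟩
  intro R hRR₀ hRR₁ w hwp hwc hwg hA hm c hcge hceq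
  have hR0 : 0 < R := by linarith
  -- a unit vector
  have hn0 : 0 < n := by omega
  obtain ⟨e, he⟩ : ∃ e : En n, ‖e‖ = 1 :=
    ⟨EuclideanSpace.single ⟨0, hn0⟩ (1 : ℝ), by simp⟩
  have hnorm : ∀ r : ℝ, 0 ≤ r → ‖r • e‖ = r := fun r hr => by
    rw [norm_smul, he, mul_one, Real.norm_eq_abs, abs_of_nonneg hr]
  obtain ⟨B, hB⟩ : ∃ B : Set (En n), B = closedBall 0 δ := ⟨_, rfl⟩
  obtain ⟨S, hS⟩ : ∃ S : Set (En n), S = sphere 0 R := ⟨_, rfl⟩
  rw [← hB] at hm hwc ⊢
  rw [← hS] at hA hwc ⊢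
  have hBm : MeasurableSet B := hB ▸ isClosed_closedBall.measurableSet
  have hSm : MeasurableSet S := hS ▸ isClosed_sphere.measurableSet
  have hBmem : ∀ y : En n, y ∈ B ↔ ‖y‖ ≤ δ := fun y => by rw [hB, mem_closedBall_zero_iff]
  have hSmem : ∀ y : En n, y ∈ S ↔ ‖y‖ = R := fun y => by rw [hS, mem_sphere_zero_iff_norm]
  have hdisj : Disjoint B S := by
    rw [Set.disjoint_left]
    intro y h1 h2
    rw [hBmem] at h1
    rw [hSmem] at h2
    linarith
  have hwU : w.restrict (B ∪ S) = w := by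
    refine Measure.restrict_eq_self_of_ae_mem ?_
    rw [ae_iff]
    exact hwc
  have hwsum : w.restrict B + w.restrict S = w := by
    rw [← Measure.restrict_union hdisj hSm, hwU]
  obtain ⟨A, hAdef⟩ : ∃ A : ℝ, A = w.real S := ⟨_, rfl⟩
  obtain ⟨m, hmdef⟩ : ∃ m : ℝ, m = w.real B := ⟨_, rfl⟩
  have hA2 : 1 / 2 ≤ A := hAdef ▸ hA
  have hA0 : 0 < A := by linarith
  have hA1 : A ≤ 1 := hAdef ▸ measureReal_le_one
  have hm0 : 0 < m := hmdef ▸ hm
  obtain ⟨f, hf⟩ : ∃ f : ℝ → ℝ, f = fun r => potential w (r • e) := ⟨_, rfl⟩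
  have hfc : Continuous f := by
    rw [hf]
    exact (continuous_potential_En w).comp (by fun_prop)
  have hfrad : ∀ y : En n, potential w y = f ‖y‖ := by
    intro y
    rw [hf]
    exact Pool.Agent.Helper27.MM.potential_radial w hwg _ _ (hnorm ‖y‖ (norm_nonneg y)).symm
  have hfge : ∀ r : ℝ, 0 ≤ r → r ≤ R → c ≤ f r := by
    intro r h0 h1
    rw [hf]
    refine hcge _ ?_
    rw [mem_closedBall_zero_iff, hnorm r h0]
    exact h1
  obtain ⟨G, hG⟩ : ∃ G : ℝ → ℝ, G = fun r => ∫ y in B, PD e ‖y‖ r ∂w := ⟨_, rfl⟩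
  have hint : ∀ r : ℝ, 0 < r → Integrable (fun y => PD e ‖y‖ r) w := fun r hr =>
    ((hRADW n (by omega) w inferInstance hwg e he).2 r hr).1
  have hder : ∀ r : ℝ, 0 < r → HasDerivAt f (A * PD e R r + G r) r := by
    intro r hr
    have h1 := ((hRADW n (by omega) w inferInstance hwg e he).2 r hr).2
    have h2 : ∫ y, PD e ‖y‖ r ∂w = A * PD e R r + G r := by
      have h3 : ∫ y, PD e ‖y‖ r ∂w = ∫ y in B ∪ S, PD e ‖y‖ r ∂w := by rw [hwU]
      rw [h3, setIntegral_union hdisj hSm (hint r hr).integrableOn (hint r hr).integrableOn]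
      have h4 : ∫ y in S, PD e ‖y‖ r ∂w = A * PD e R r := by
        have h5 : ∫ y in S, PD e ‖y‖ r ∂w = ∫ y in S, PD e R r ∂w := by
          refine setIntegral_congr_fun hSm ?_
          intro y hy
          rw [hSmem] at hy
          show PD e ‖y‖ r = PD e R r
          rw [hy]
        rw [h5, setIntegral_const, smul_eq_mul, ← hAdef]
      rw [h4, hG]
      ring
    rw [h2] at h1
    rw [hf]
    exact h1
  -- the largest norm in the inner part of the support
  have hne : (B ∩ w.support).Nonempty := by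
    refine Measure.nonempty_inter_support_of_pos ?_
    rw [pos_iff_ne_zero]
    intro h
    rw [measureReal_def, h] at hm
    simp at hm
  have hcpt : IsCompact (B ∩ w.support) := by
    rw [hB]
    exact (isCompact_closedBall 0 δ).inter_right Measure.isClosed_support
  obtain ⟨y₀, hy₀, hmax⟩ := hcpt.exists_isMaxOn hne continuous_norm.continuousOn
  obtain ⟨sb, hsb⟩ : ∃ s : ℝ, s = ‖y₀‖ := ⟨_, rfl⟩
  have hsbδ : sb ≤ δ := by
    rw [hsb]
    exact (hBmem y₀).1 hy₀.1
  have hsb0 : 0 ≤ sb := hsb ▸ norm_nonneg y₀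
  have hfsb : f sb = c := by
    rw [hsb, ← hfrad]
    exact hceq y₀ hy₀.2
  have hle : ∀ y ∈ B, y ∈ w.support → ‖y‖ ≤ sb := by
    intro y h1 h2
    rw [hsb]
    exact hmax ⟨h1, h2⟩
  have haeB : ∀ᵐ y ∂(w.restrict B), ‖y‖ ≤ sb := by
    rw [ae_restrict_iff' hBm]
    filter_upwards [Measure.support_mem_ae (μ := w)] with y hy hyB
    exact hle y hyB hy
  have hR2om : R ^ 2 * om 3 (R / 2) ≤ C₁ := by
    rw [hC₁]
    have h1 : om 3 (R / 2) ≤ om 3 (R₀ / 2) := om_le 3 (by linarith) (by linarith)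
    have h2 : R ^ 2 ≤ (R₀ + 1) ^ 2 := by nlinarith
    have h3 := om_pos 3 (show (0 : ℝ) < R / 2 by linarith)
    exact mul_le_mul h2 h1 h3.le (by positivity)
  have hR2om0 : 0 < R ^ 2 * om 3 (R / 2) := by
    have h3 := om_pos 3 (show (0 : ℝ) < R / 2 by linarith)
    positivity
  obtain ⟨hO1, hO2⟩ := hOUTER n (by omega) e he R hR0
  have hPD1 : ∀ s : ℝ, 0 ≤ s → ∀ r : ℝ, 0 < r → |PD e s r| ≤ 1 := fun s hs r hr =>
    ((hPDER n (by omega) e he s hs).1 r hr).2
  rcases hsb0.eq_or_lt with hs0 | hspos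
  · -- the inner part cannot be an atom at the centre
    exfalso
    obtain ⟨C₂, hC₂⟩ : ∃ C : ℝ, C = 2 / R + R ^ 2 * om 3 (R / 2) * (R / 2) ^ 2 := ⟨_, rfl⟩
    have hC₂0 : 0 < C₂ := by rw [hC₂]; positivity
    have hPDR : ∀ r : ℝ, 0 < r → r ≤ R / 2 → PD e R r ≤ C₂ * r := by
      intro r hr hr2
      have h1 := hO1 r (R / 2) hr hr2 le_rfl
      have h2 : PD e R (R / 2) / (R / 2) ≤ 2 / R := by
        have h3 := (abs_le.1 (hPD1 R hR0.le (R / 2) (by linarith))).2
        have h4 : PD e R (R / 2) / (R / 2) ≤ 1 / (R / 2) :=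
          div_le_div_of_nonneg_right h3 (by linarith)
        have h5 : 1 / (R / 2) = 2 / R := by field_simp
        linarith
      have h3 : R ^ 2 * om 3 (R / 2) * ((R / 2) ^ 2 - r ^ 2) ≤
          R ^ 2 * om 3 (R / 2) * (R / 2) ^ 2 :=
        mul_le_mul_of_nonneg_left (by nlinarith) hR2om0.le
      have h4 : PD e R r / r ≤ C₂ := by
        rw [hC₂]
        linarith
      rwa [div_le_iff₀ hr] at h4
    have hPD0 : ∀ r : ℝ, 0 < r → PD e 0 r = -Real.exp (-r) := by
      intro r hr
      obtain ⟨hσp, hσs, -⟩ := fSPH1 n (by omega) 0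
      have hσs := hσs le_rfl
      unfold PD
      congr 1
      have h1 : ∫ y, Real.exp (-dist (r • e) y) * inner ℝ (r • e - y) e / dist (r • e) y
          ∂(sphUnif n 0) = ∫ _y, Real.exp (-r) ∂(sphUnif n 0) := by
        refine integral_congr_ae ?_
        filter_upwards [hσs] with y hy
        rw [norm_eq_zero] at hy
        rw [hy, dist_zero_right, hnorm r hr.le, sub_zero, real_inner_smul_left,
          real_inner_self_eq_norm_sq, he]
        field_simp
      rw [h1, integral_const, probReal_univ, one_smul]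
    have hG0 : ∀ r : ℝ, 0 < r → G r = -(m * Real.exp (-r)) := by
      intro r hr
      rw [hG]
      have h1 : ∫ y in B, PD e ‖y‖ r ∂w = ∫ y in B, -Real.exp (-r) ∂w := by
        refine integral_congr_ae ?_
        filter_upwards [haeB] with y hy
        have h2 : ‖y‖ = 0 := le_antisymm (by linarith) (norm_nonneg y)
        rw [h2, hPD0 r hr]
      show ∫ y in B, PD e ‖y‖ r ∂w = -(m * Real.exp (-r))
      rw [h1, setIntegral_const, smul_eq_mul, ← hmdef]
      ring
    obtain ⟨r₀, hr₀⟩ : ∃ r : ℝ, r = min (min 1 (R / 2)) (m * Real.exp (-1) / (2 * C₂)) :=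
      ⟨_, rfl⟩
    have he1 : 0 < Real.exp (-1) := Real.exp_pos _
    have hr₀0 : 0 < r₀ := by
      rw [hr₀]
      exact lt_min (lt_min one_pos (by linarith)) (by positivity)
    have hr₀1 : r₀ ≤ 1 := hr₀ ▸ (min_le_left _ _).trans (min_le_left _ _)
    have hr₀2 : r₀ ≤ R / 2 := hr₀ ▸ (min_le_left _ _).trans (min_le_right _ _)
    have hr₀3 : r₀ ≤ m * Real.exp (-1) / (2 * C₂) := hr₀ ▸ min_le_right _ _
    have hneg : ∀ r : ℝ, 0 < r → r < r₀ → A * PD e R r + G r < 0 := by
      intro r h0 h1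
      rw [hG0 r h0]
      have h2 := hPDR r h0 (by linarith)
      have h3 : C₂ * r ≤ m * Real.exp (-1) / 2 := by
        have h4 : C₂ * r ≤ C₂ * (m * Real.exp (-1) / (2 * C₂)) :=
          mul_le_mul_of_nonneg_left (by linarith) hC₂0.le
        have h5 : C₂ * (m * Real.exp (-1) / (2 * C₂)) = m * Real.exp (-1) / 2 := by
          field_simp
        linarith
      have h4 : Real.exp (-1) ≤ Real.exp (-r) := Real.exp_le_exp.2 (by linarith)
      have h5 : m * Real.exp (-1) ≤ m * Real.exp (-r) := mul_le_mul_of_nonneg_left h4 hm0.le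
      have h6 : A * PD e R r ≤ A * (C₂ * r) := mul_le_mul_of_nonneg_left h2 hA0.le
      have h7 : A * (C₂ * r) ≤ C₂ * r := by
        have : 0 ≤ C₂ * r := by positivity
        nlinarith
      have h8 : 0 < m * Real.exp (-1) := by positivity
      linarith
    have hanti : StrictAntiOn f (Icc 0 r₀) := by
      refine strictAntiOn_of_deriv_neg (convex_Icc 0 r₀) hfc.continuousOn ?_
      intro r hr
      rw [interior_Icc] at hr
      rw [(hder r hr.1).deriv]
      exact hneg r hr.1 hr.2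
    have h1 := hanti (left_mem_Icc.2 hr₀0.le) (right_mem_Icc.2 hr₀0.le) hr₀0
    have h2 := hfge r₀ hr₀0.le (by linarith)
    rw [← hs0] at hfsb
    linarith
  · -- the inner part is a sphere of radius `sb`
    have hmin : IsLocalMin f sb := by
      have h1 : Ioo 0 R ∈ 𝓝 sb := Ioo_mem_nhds hspos (by linarith)
      filter_upwards [h1] with r hr
      rw [hfsb]
      exact hfge r hr.1.le hr.2.le
    have hD0 : A * PD e R sb + G sb = 0 := hmin.hasDerivAt_eq_zero (hder sb hspos)
    have hGlow : -m ≤ G sb := by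
      rw [hG]
      show -m ≤ ∫ y in B, PD e ‖y‖ sb ∂w
      have h1 : ∫ _y in B, (-1 : ℝ) ∂w ≤ ∫ y in B, PD e ‖y‖ sb ∂w := by
        refine integral_mono (integrable_const _) (hint sb hspos).integrableOn ?_
        intro y
        exact (abs_le.1 (hPD1 ‖y‖ (norm_nonneg y) sb hspos)).1
      rw [setIntegral_const, smul_eq_mul, ← hmdef] at h1
      linarith
    have hsbR : sb ≤ R / 2 := by linarith
    have hPDlow : α / 2 * sb ≤ PD e R sb := by
      have h1 := hO2 sb hspos hsbR
      have h2 : α ≤ Real.exp (-R) * (R - ((n : ℝ) - 1)) / (n * R) := by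
        rw [hα]
        have h3 : Real.exp (-(R₀ + 1)) ≤ Real.exp (-R) := Real.exp_le_exp.2 (by linarith)
        have h4 : 0 < Real.exp (-(R₀ + 1)) := Real.exp_pos _
        have h5 : Real.exp (-(R₀ + 1)) * (R₀ - ((n : ℝ) - 1)) ≤
            Real.exp (-R) * (R - ((n : ℝ) - 1)) :=
          mul_le_mul h3 (by linarith) (by linarith) (Real.exp_pos _).le
        have h6 : 0 ≤ Real.exp (-R) * (R - ((n : ℝ) - 1)) :=
          mul_nonneg (Real.exp_pos _).le (by linarith)
        exact div_le_div₀ h6 h5 (by positivity)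
          (mul_le_mul_of_nonneg_left hRR₁ (by linarith))
      have h3 : R ^ 2 * om 3 (R / 2) * sb ^ 2 ≤ α / 2 := by
        have h4 : R ^ 2 * om 3 (R / 2) * sb ^ 2 ≤ C₁ * δ ^ 2 :=
          mul_le_mul hR2om (by nlinarith) (by positivity) hC₁0.le
        linarith
      have h4 : α / 2 ≤ PD e R sb / sb := by linarith
      rwa [le_div_iff₀ hspos] at h4
    have hmlow : A * (α / 2 * sb) ≤ m := by
      have h1 : A * (α / 2 * sb) ≤ A * PD e R sb := mul_le_mul_of_nonneg_left hPDlow hA0.le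
      linarith
    have hneg : ∀ r : ℝ, 0 < r → r < sb → A * PD e R r + G r < 0 := by
      intro r h0 h1
      have hdr : 0 < sb ^ 2 - r ^ 2 := by nlinarith
      -- the outer sphere
      have hout := hO1 r sb h0 h1.le hsbR
      -- the inner part
      have hin : m * (cM * (sb ^ 2 - r ^ 2) / sb ^ 3) ≤ G sb / sb - G r / r := by
        rw [hG]
        show m * (cM * (sb ^ 2 - r ^ 2) / sb ^ 3) ≤
          (∫ y in B, PD e ‖y‖ sb ∂w) / sb - (∫ y in B, PD e ‖y‖ r ∂w) / r
        have i1 : Integrable (fun y => PD e ‖y‖ sb / sb) (w.restrict B) :=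
          (hint sb hspos).integrableOn.div_const sb
        have i2 : Integrable (fun y => PD e ‖y‖ r / r) (w.restrict B) :=
          (hint r h0).integrableOn.div_const r
        rw [← integral_div, ← integral_div, ← integral_sub i1 i2]
        have h2 : ∫ _y in B, (cM * (sb ^ 2 - r ^ 2) / sb ^ 3) ∂w ≤
            ∫ y in B, (PD e ‖y‖ sb / sb - PD e ‖y‖ r / r) ∂w := by
          refine integral_mono_ae (integrable_const _) (i1.sub i2) ?_
          filter_upwards [haeB] with y hy
          have h3 := hM e ‖y‖ r sb he (norm_nonneg y) (by linarith) h0 h1.le (by linarith)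
          rw [max_eq_right hy] at h3
          exact h3
        rwa [setIntegral_const, smul_eq_mul, ← hmdef] at h2
      have hout2 : -(C₁ * (sb ^ 2 - r ^ 2)) ≤ PD e R sb / sb - PD e R r / r := by
        have h2 : R ^ 2 * om 3 (R / 2) * (sb ^ 2 - r ^ 2) ≤ C₁ * (sb ^ 2 - r ^ 2) :=
          mul_le_mul_of_nonneg_right hR2om hdr.le
        linarith
      have hK : A * C₁ < m * cM / sb ^ 3 := by
        rw [lt_div_iff₀ (by positivity)]
        have h2 : C₁ * sb ^ 2 ≤ α * cM / 4 := by
          have h3 : C₁ * sb ^ 2 ≤ C₁ * δ ^ 2 :=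
            mul_le_mul_of_nonneg_left (by nlinarith) hC₁0.le
          linarith
        have h4 : A * C₁ * sb ^ 3 = A * sb * (C₁ * sb ^ 2) := by ring
        have h5 : A * sb * (C₁ * sb ^ 2) ≤ A * sb * (α * cM / 4) :=
          mul_le_mul_of_nonneg_left h2 (by positivity)
        have h6 : A * (α / 2 * sb) * cM ≤ m * cM := mul_le_mul_of_nonneg_right hmlow hcM.le
        have h7 : 0 < A * sb * (α * cM / 4) := by positivity
        nlinarith
      have h2 : A * (PD e R sb / sb - PD e R r / r) + (G sb / sb - G r / r) > 0 := by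
        have h3 : A * -(C₁ * (sb ^ 2 - r ^ 2)) ≤ A * (PD e R sb / sb - PD e R r / r) :=
          mul_le_mul_of_nonneg_left hout2 hA0.le
        have h4 : m * (cM * (sb ^ 2 - r ^ 2) / sb ^ 3) =
            m * cM / sb ^ 3 * (sb ^ 2 - r ^ 2) := by ring
        have h5 : A * C₁ * (sb ^ 2 - r ^ 2) < m * cM / sb ^ 3 * (sb ^ 2 - r ^ 2) :=
          mul_lt_mul_of_pos_right hK hdr
        nlinarith
      have h3 : A * (PD e R sb / sb - PD e R r / r) + (G sb / sb - G r / r) =
          (A * PD e R sb + G sb) / sb - (A * PD e R r + G r) / r := by ring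
      rw [h3, hD0, zero_div, zero_sub] at h2
      have h4 : (A * PD e R r + G r) / r < 0 := by linarith
      have h5 : A * PD e R r + G r = (A * PD e R r + G r) / r * r := by field_simp
      rw [h5]
      exact mul_neg_of_neg_of_pos h4 h0
    have hanti : StrictAntiOn f (Icc 0 sb) := by
      refine strictAntiOn_of_deriv_neg (convex_Icc 0 sb) hfc.continuousOn ?_
      intro r hr
      rw [interior_Icc] at hr
      rw [(hder r hr.1).deriv]
      exact hneg r hr.1 hr.2
    have hsph : ∀ y ∈ B, y ∈ w.support → ‖y‖ = sb := by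
      intro y h1 h2
      refine le_antisymm (hle y h1 h2) ?_
      by_contra hlt
      rw [not_le] at hlt
      have h3 := hanti ⟨norm_nonneg y, hlt.le⟩ (right_mem_Icc.2 hspos.le) hlt
      rw [hfsb, ← hfrad, hceq y h2] at h3
      exact lt_irrefl _ h3
    have hcarB : w (B ∩ (sphere (0 : En n) sb)ᶜ) = 0 := by
      refine measure_mono_null ?_ (Measure.measure_compl_support (μ := w))
      rintro y ⟨h1, h2⟩ h3
      exact h2 (mem_sphere_zero_iff_norm.2 (hsph y h1 h3))
    have hcarS : w (S ∩ (sphere (0 : En n) R)ᶜ) = 0 := by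
      rw [hS, inter_compl_self, measure_empty]
    have hBg : ∀ g : En n ≃ₗᵢ[ℝ] En n, (g : En n → En n) ⁻¹' B = B := by
      intro g
      ext y
      rw [mem_preimage, hBmem, hBmem, LinearIsometryEquiv.norm_map]
    have hSg : ∀ g : En n ≃ₗᵢ[ℝ] En n, (g : En n → En n) ⁻¹' S = S := by
      intro g
      ext y
      rw [mem_preimage, hSmem, hSmem, LinearIsometryEquiv.norm_map]
    have hrB := restrict_eq (by omega) w hwg B hBm hBg sb hspos hm hcarB
    have hrS := restrict_eq (by omega) w hwg S hSm hSg R hR0 (by linarith) hcarS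
    refine ⟨sb, hspos, hsbδ, ?_⟩
    rw [← hrB, ← hrS, add_comm]
    exact hwsum.symm

theorem goalINNER : PDER → SDER → MONO → OUTER → RADW → INNER :=
  fun h1 _ h3 h4 h5 => innerMain h1 h3 h4 h5

end Pool.Agent.Helper97.MM5
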